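import Pool.Agent.Run7.h523.KF.Iface3

set_option autoImplicit false

namespace Run7.h11.KF

open Run7.h523.KF MeasureTheory Set
open scoped ENNReal

lemma mp_sign (c : ℝ) (hc : c = 1 ∨ c = -1) :
    MeasurePreserving (fun t : ℝ => c * t) volume volume := by
  rcases hc with rfl | rfl
  · simp only [one_mul]
    exact MeasurePreserving.id (volume : Measure ℝ)
  · simpa using Measure.measurePreserving_neg (volume : Measure ℝ)

theorem mp_signed (P : Type) [Fintype P] [DecidableEq P] (σ : Equiv.Perm P) (ε : P → ℝ)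
    (hε : ∀ v, ε v = 1 ∨ ε v = -1) :
    MeasurePreserving (fun (y : P → ℝ) v => ε v * y (σ v)) := by
  have h1 : MeasurePreserving (fun (y : P → ℝ) v => ε v * y v) :=
    volume_preserving_pi (fun v => mp_sign (ε v) (hε v))
  have h2 := volume_measurePreserving_piCongrLeft (fun _ : P => ℝ) (σ.symm : P ≃ P)
  have h3 := h1.comp h2
  have h5 : (fun (y : P → ℝ) v => ε v * y (σ v)) =
      (fun (y : P → ℝ) v => ε v * y v) ∘ (MeasurableEquiv.piCongrLeft (fun _ : P => ℝ) σ.symm) := by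
    funext y v
    show ε v * y (σ v) = ε v * _
    congr 1
    have h4 := MeasurableEquiv.piCongrLeft_apply_apply (β := fun _ : P => ℝ) (σ.symm) y (σ v)
    rw [Equiv.symm_apply_apply] at h4
    exact h4.symm
  rw [h5]
  exact h3

theorem t_SPM (hCH : S_CH0) : S_SPM := by
  intro P _ _
  refine ⟨fun σ ε hε => mp_signed P σ ε hε, ?_⟩
  intro ρ hρ Φ hΦ hinv x hx
  obtain ⟨hop, hdis, hnull, -, htr⟩ := hCH P
  have heq : ∀ x' ∈ XX P, ∫⁻ y in Ch x', Φ y * ENNReal.ofReal (ρ y) =
      ∫⁻ y in Ch x, Φ y * ENNReal.ofReal (ρ y) := by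
    intro x' hx'
    obtain ⟨σ, ε, hε, -, hmem⟩ := htr x hx x' hx'
    have hmp := mp_signed P σ ε hε
    have hset : (fun (y : P → ℝ) v => ε v * y (σ v)) ⁻¹' (Ch x') = Ch x := by
      ext y
      exact (hmem y).symm
    have hF : Measurable fun y => Φ y * ENNReal.ofReal (ρ y) :=
      hΦ.mul (ENNReal.measurable_ofReal.comp hρ.meas)
    have h := (hmp.restrict_preimage (hop x' hx').measurableSet).lintegral_comp hF
    rw [hset] at h
    rw [← h]
    apply lintegral_congr
    intro y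
    have habs : ∀ i, |ε i * y (σ i)| = |y (σ i)| := by
      intro i
      rcases hε i with h | h <;> rw [h] <;> simp
    rw [hinv σ y _ habs, hρ.inv σ y _ habs]
  have hU : ∫⁻ y in ⋃ x' ∈ XX P, Ch x', Φ y * ENNReal.ofReal (ρ y) =
      ∑ x' ∈ XX P, ∫⁻ y in Ch x', Φ y * ENNReal.ofReal (ρ y) :=
    lintegral_biUnion_finset (fun a ha b hb hab => hdis a ha b hb hab)
      (fun b hb => (hop b hb).measurableSet) _
  have hfull : ∫⁻ y in ⋃ x' ∈ XX P, Ch x', Φ y * ENNReal.ofReal (ρ y) =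
      ∫⁻ y, Φ y * ENNReal.ofReal (ρ y) := by
    rw [Measure.restrict_eq_self_of_ae_mem]
    rw [← mem_ae_iff] at hnull
    exact hnull
  rw [← hfull, hU, Finset.sum_congr rfl heq, Finset.sum_const, nsmul_eq_mul]

end Run7.h11.KF
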