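import Pool.Agent.Run7.h11.KF.RF
import Pool.Agent.Run7.h11.KF.SPM

set_option autoImplicit false

namespace Run7.h11.KF

open Run7.h523.KF MeasureTheory Set
open scoped ENNReal

section geo
variable {P : Type}

lemma sv_lin (c : ℝ) (y z : P → ℝ) (a : P × Bool) : sv (y + c • z) a = sv y a + c * sv z a := by
  unfold sv
  split_ifs
  · simp
  · simp
    ring

lemma sv_cast (x : P → ℤ) (a : P × Bool) : sv (fun v => (x v : ℝ)) a = ((sv x a : ℤ) : ℝ) := by
  unfold sv
  split_ifs <;> simp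

variable [Fintype P] [DecidableEq P] [Nonempty P]

lemma rf_lin (x : P → ℤ) (j : ℕ) (c : ℝ) (y z : P → ℝ) :
    rf x j (y + c • z) = rf x j y + c • rf x j z := by
  funext v
  exact sv_lin c y z _

lemma uu_lin (x : P → ℤ) (i : ℕ) (c : ℝ) (y z : P → ℝ) :
    uu x (y + c • z) i = uu x y i + c * uu x z i := by
  unfold uu
  split_ifs
  · simp
  · exact sv_lin c y z _

lemma gp_lin (x : P → ℤ) (j : ℕ) (c : ℝ) (y z : P → ℝ) :
    gp x (y + c • z) j = gp x y j + c * gp x z j := by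
  unfold gp
  rw [uu_lin, uu_lin]
  ring

/-- the gap as a linear functional -/
noncomputable def gpL (x : P → ℤ) (j : ℕ) : (P → ℝ) →ₗ[ℝ] ℝ where
  toFun y := gp x y j
  map_add' y z := by
    have h := gp_lin x j 1 y z
    rwa [one_smul, one_mul] at h
  map_smul' c y := by
    have h := gp_lin x j c 0 y
    have h0 := gp_lin x j (-1) (0 : P → ℝ) 0
    simp only [smul_zero, add_zero, zero_add] at h h0
    simp only [RingHom.id_apply, smul_eq_mul]
    rw [h]
    linarith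

lemma rank_one (x : P → ℤ) (j : ℕ) (hx : x ∈ XX P) (hj : j < Fintype.card P) :
    ∃ (φ : (P → ℝ) →ₗ[ℝ] ℝ) (u : P → ℝ), φ u = 2 ∧ ∀ y, rf x j y = y - φ y • u := by
  obtain ⟨-, -, -, -, hinv, -, -, -, hsq, hpos, -⟩ := t_RF P x j hx hj
  have hx0 : (fun v => (x v : ℝ)) ∈ Ch x := by
    intro a b hab
    rw [sv_cast, sv_cast]
    exact_mod_cast hab
  obtain ⟨y1, hy1⟩ : ∃ y1 : P → ℝ, y1 ∈ Ch x := ⟨_, hx0⟩
  have hg : 0 < gpL x j y1 := hpos y1 hy1 j hj
  have hker : ∀ y, gpL x j y = 0 → rf x j y = y := by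
    intro y hy
    have h := hsq y
    have hy' : gp x y j = 0 := hy
    have h0 : ∑ v, (y v - rf x j y v) ^ 2 = 0 := by
      rw [h]
      split_ifs with hj0
      · subst hj0
        rw [hy']
        ring
      · rw [hy']
        ring
    funext v
    have h1 := (Finset.sum_eq_zero_iff_of_nonneg (fun i _ => sq_nonneg _)).1 h0 v
      (Finset.mem_univ _)
    have h2 := pow_eq_zero_iff (two_ne_zero) |>.1 h1
    linarith
  obtain ⟨u, hu⟩ : ∃ u : P → ℝ, u = (gpL x j y1)⁻¹ • (y1 - rf x j y1) := ⟨_, rfl⟩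
  have hrep : ∀ y, rf x j y = y - gpL x j y • u := by
    intro y
    have h := hker (y + (-(gpL x j y / gpL x j y1)) • y1) (by
      rw [map_add, map_smul, smul_eq_mul]
      field_simp
      ring)
    rw [rf_lin] at h
    rw [hu]
    funext v
    have hv := congrFun h v
    simp only [Pi.add_apply, Pi.smul_apply, smul_eq_mul, Pi.sub_apply] at hv ⊢
    field_simp
    field_simp at hv
    linarith
  refine ⟨gpL x j, u, ?_, hrep⟩
  have h1 := hinv y1
  rw [hrep (rf x j y1), hrep y1, map_sub, map_smul, smul_eq_mul] at h1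
  by_contra hne
  have hu0 : ∀ v, u v = 0 := by
    intro v
    have hv := congrFun h1 v
    simp only [Pi.smul_apply, smul_eq_mul, Pi.sub_apply] at hv
    have h2 : gpL x j y1 * (2 - gpL x j u) * u v = 0 := by linarith
    rcases mul_eq_zero.1 h2 with h3 | h3
    · rcases mul_eq_zero.1 h3 with h4 | h4
      · exact absurd h4 hg.ne'
      · exact absurd (by linarith) hne
    · exact h3
  have h5 := hsq y1
  have h6 : ∑ v, (y1 v - rf x j y1 v) ^ 2 = 0 := by
    apply Finset.sum_eq_zero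
    intro v _
    rw [hrep y1]
    simp [hu0 v]
  rw [h6] at h5
  have hg' : 0 < gp x y1 j := hg
  split_ifs at h5 with hj0
  · subst hj0
    nlinarith
  · nlinarith

/-- the contraction towards the wall -/
noncomputable def kap (x : P → ℤ) (j : ℕ) (θ : ℝ) (y : P → ℝ) : P → ℝ :=
  fun v => (1 + θ) / 2 * y v + (1 - θ) / 2 * rf x j y v

lemma kap_map (x : P → ℤ) (j : ℕ) (hx : x ∈ XX P) (hj : j < Fintype.card P) (θ : ℝ)
    (hθ : 0 < θ) : Measure.map (kap x j θ) volume = ENNReal.ofReal θ⁻¹ • volume := by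
  obtain ⟨φ, u, hu, hr⟩ := rank_one x j hx hj
  have h1 : kap x j θ = LinearMap.transvection φ ((-((1 - θ) / 2)) • u) := by
    funext y v
    rw [LinearMap.transvection.apply]
    unfold kap
    rw [hr]
    simp only [Pi.add_apply, Pi.smul_apply, smul_eq_mul, Pi.sub_apply]
    ring
  have h2 : LinearMap.det (LinearMap.transvection φ ((-((1 - θ) / 2)) • u)) = θ := by
    rw [LinearMap.transvection.det, map_smul, hu, smul_eq_mul]
    ring
  rw [h1, Real.map_linearMap_volume_pi_eq_smul_volume_pi (by rw [h2]; exact hθ.ne'), h2,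
    abs_of_pos (inv_pos.2 hθ)]

lemma rf_kap (x : P → ℤ) (j : ℕ) (hx : x ∈ XX P) (hj : j < Fintype.card P) (θ : ℝ) (y : P → ℝ) :
    rf x j (kap x j θ y) = kap x j (-θ) y := by
  obtain ⟨-, -, -, -, hinv, -⟩ := t_RF P x j hx hj
  have h1 : kap x j θ y = (((1 + θ) / 2) • y) + ((1 - θ) / 2) • rf x j y := by
    funext v
    simp [kap]
  have h2 : rf x j (((1 + θ) / 2) • y) = ((1 + θ) / 2) • rf x j y := by
    have h := rf_lin x j ((1 + θ) / 2) 0 y
    have h0 := rf_lin x j (-1) (0 : P → ℝ) 0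
    simp only [smul_zero, add_zero, zero_add] at h h0
    rw [h]
    have h3 : rf x j (0 : P → ℝ) = 0 := by
      funext v
      have := congrFun h0 v
      simp at this
      simp
      linarith
    rw [h3, zero_add]
  rw [h1, rf_lin, h2, hinv]
  funext v
  simp only [Pi.add_apply, Pi.smul_apply, smul_eq_mul, kap]
  ring

lemma meas_kap (x : P → ℤ) (j : ℕ) : Measurable fun q : ℝ × (P → ℝ) => kap x j q.1 q.2 := by
  apply measurable_pi_lambda
  intro v
  have h : Measurable fun y : P → ℝ => rf x j y v := by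
    unfold rf sv
    split_ifs <;> fun_prop
  unfold kap
  have h2 : Measurable fun q : ℝ × (P → ℝ) => rf x j q.2 v := h.comp measurable_snd
  fun_prop

lemma cont_kap (x : P → ℤ) (j : ℕ) (y : P → ℝ) : Continuous fun θ : ℝ => kap x j θ y := by
  apply continuous_pi
  intro v
  unfold kap
  fun_prop

lemma meas_Ch (x : P → ℤ) : MeasurableSet (Ch x) := by
  have h : Ch x = ⋂ a, ⋂ b, {y | sv x a < sv x b → sv y a < sv y b} := by
    ext y
    simp [Ch]
  have hm : ∀ a : P × Bool, Measurable fun y : P → ℝ => sv y a := by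
    intro a
    unfold sv
    split_ifs <;> fun_prop
  rw [h]
  refine MeasurableSet.iInter fun a => MeasurableSet.iInter fun b => ?_
  by_cases hab : sv x a < sv x b
  · simp only [hab, true_imp_iff]
    exact measurableSet_lt (hm a) (hm b)
  · simp [hab]

lemma rf_signed (x : P → ℤ) (j : ℕ) (hx : x ∈ XX P) (hj : j < Fintype.card P) :
    ∃ (σ : Equiv.Perm P) (ε : P → ℝ), (∀ v, ε v = 1 ∨ ε v = -1) ∧
      rf x j = fun (y : P → ℝ) v => ε v * y (σ v) := by
  obtain ⟨-, -, -, ⟨σ, ε, hε, hr⟩, -⟩ := t_RF P x j hx hj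
  exact ⟨σ, ε, hε, funext fun y => funext fun v => hr y v⟩

lemma rho_rf {ρ : (P → ℝ) → ℝ} (hρ : Sy1 ρ) (x : P → ℤ) (j : ℕ) (hx : x ∈ XX P)
    (hj : j < Fintype.card P) (y : P → ℝ) : ρ (rf x j y) = ρ y := by
  obtain ⟨σ, ε, hε, hr⟩ := rf_signed x j hx hj
  refine hρ.inv σ y _ (fun i => ?_)
  rw [hr]
  rcases hε i with h | h <;> simp [h]

lemma mp_rf (x : P → ℤ) (j : ℕ) (hx : x ∈ XX P) (hj : j < Fintype.card P) :
    MeasurePreserving (rf x j) (volume.restrict (Ch x)) (volume.restrict (Ch (sx j x))) := by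
  obtain ⟨σ, ε, hε, hr⟩ := rf_signed x j hx hj
  obtain ⟨-, -, -, -, -, -, hmem, -⟩ := t_RF P x j hx hj
  have h := mp_signed P σ ε hε
  rw [← hr] at h
  have hset : rf x j ⁻¹' (Ch (sx j x)) = Ch x := by
    ext y
    exact (hmem y).symm
  have h2 := h.restrict_preimage (meas_Ch (sx j x))
  rwa [hset] at h2

lemma rho_kap {ρ : (P → ℝ) → ℝ} (hρ : Sy1 ρ) (x : P → ℤ) (j : ℕ) (hx : x ∈ XX P)
    (hj : j < Fintype.card P) (θ : ℝ) (hθ : 0 < θ) (hθ1 : θ ≤ 1) (y : P → ℝ) :
    ρ y ≤ ρ (kap x j θ y) := by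
  rcases hθ1.lt_or_eq with h | h
  · have h1 := hρ.logc y (rf x j y) ((1 - θ) / 2) (by linarith) (by linarith)
    have h2 : (1 - (1 - θ) / 2) • y + ((1 - θ) / 2) • rf x j y = kap x j θ y := by
      funext v
      simp only [Pi.add_apply, Pi.smul_apply, smul_eq_mul, kap]
      ring
    rw [rho_rf hρ x j hx hj, h2] at h1
    have h3 : ρ y ^ (1 - (1 - θ) / 2) * ρ y ^ ((1 - θ) / 2) = ρ y := by
      rcases (hρ.nonneg y).lt_or_eq with h4 | h4
      · rw [← Real.rpow_add h4]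
        simp
      · rw [← h4, Real.zero_rpow (by linarith), zero_mul]
    rwa [h3] at h1
  · subst h
    have h2 : kap x j 1 y = y := by
      funext v
      simp [kap]
    rw [h2]

lemma lint_kap {ρ : (P → ℝ) → ℝ} (hρ : Sy1 ρ) (x : P → ℤ) (j : ℕ) (hx : x ∈ XX P)
    (hj : j < Fintype.card P) (θ : ℝ) (hθ : 0 < θ) (hθ1 : θ ≤ 1) (G : (P → ℝ) → ℝ≥0∞)
    (hG : Measurable G) :
    ∫⁻ y in Ch x, G (kap x j θ y) * ENNReal.ofReal (ρ y) ≤
      ENNReal.ofReal θ⁻¹ * ∫⁻ y in Ch x, G y * ENNReal.ofReal (ρ y) := by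
  obtain ⟨-, -, -, -, -, -, -, -, -, -, hin⟩ := t_RF P x j hx hj
  have hH : Measurable fun y => G y * ENNReal.ofReal (ρ y) :=
    hG.mul (ENNReal.measurable_ofReal.comp hρ.meas)
  have hk : Measurable (kap x j θ) := (meas_kap x j).comp (measurable_const.prodMk measurable_id)
  have hC := meas_Ch x
  calc ∫⁻ y in Ch x, G (kap x j θ y) * ENNReal.ofReal (ρ y)
      ≤ ∫⁻ y in Ch x, G (kap x j θ y) * ENNReal.ofReal (ρ (kap x j θ y)) :=
        lintegral_mono fun y => mul_le_mul_right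
          (ENNReal.ofReal_le_ofReal (rho_kap hρ x j hx hj θ hθ hθ1 y)) _
    _ = ∫⁻ y, (Ch x).indicator
          (fun y => G (kap x j θ y) * ENNReal.ofReal (ρ (kap x j θ y))) y :=
        (lintegral_indicator hC _).symm
    _ ≤ ∫⁻ y, (Ch x).indicator (fun y => G y * ENNReal.ofReal (ρ y)) (kap x j θ y) := by
        apply lintegral_mono
        intro y
        by_cases hy : y ∈ Ch x
        · have h1 : kap x j θ y ∈ Ch x := hin y hy θ hθ hθ1
          simp only [Set.indicator_of_mem hy, Set.indicator_of_mem h1]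
          exact le_rfl
        · simp only [Set.indicator_of_notMem hy]
          exact zero_le
    _ = ∫⁻ z, (Ch x).indicator (fun y => G y * ENNReal.ofReal (ρ y)) z
          ∂(Measure.map (kap x j θ) volume) := (lintegral_map (hH.indicator hC) hk).symm
    _ = ENNReal.ofReal θ⁻¹ * ∫⁻ y in Ch x, G y * ENNReal.ofReal (ρ y) := by
        rw [kap_map x j hx hj θ hθ, lintegral_smul_measure, lintegral_indicator hC, smul_eq_mul]

lemma lint_kap' {ρ : (P → ℝ) → ℝ} (hρ : Sy1 ρ) (x : P → ℤ) (j : ℕ) (hx : x ∈ XX P)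
    (hj : j < Fintype.card P) (θ : ℝ) (hθ : 0 < θ) (hθ1 : θ ≤ 1) (G : (P → ℝ) → ℝ≥0∞)
    (hG : Measurable G) :
    ∫⁻ y in Ch x, G (kap x j (-θ) y) * ENNReal.ofReal (ρ y) ≤
      ENNReal.ofReal θ⁻¹ * ∫⁻ y in Ch (sx j x), G y * ENNReal.ofReal (ρ y) := by
  have hmp := mp_rf x j hx hj
  have hH : Measurable fun y => G y * ENNReal.ofReal (ρ y) :=
    hG.mul (ENNReal.measurable_ofReal.comp hρ.meas)
  have h1 := lint_kap hρ x j hx hj θ hθ hθ1 (fun z => G (rf x j z)) (hG.comp hmp.measurable)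
  rw [← hmp.lintegral_comp hH]
  simp only [rf_kap x j hx hj, rho_rf hρ x j hx hj] at h1 ⊢
  exact h1

/-- the part of the squared gradient at the levels of the bond -/
noncomputable def e2 (f : (P → ℝ) → ℝ) (x : P → ℤ) (j : ℕ) (y : P → ℝ) : ℝ :=
  ∑ v, if |x v| = 2 * j - 1 ∨ |x v| = 2 * j + 1 then (fderiv ℝ f y (Pi.single v 1)) ^ 2 else 0

/-- squared distance to the wall -/
noncomputable def t2 (x : P → ℤ) (j : ℕ) (y : P → ℝ) : ℝ :=
  1 / 4 * ∑ v, (y v - rf x j y v) ^ 2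

lemma e2_nonneg (f : (P → ℝ) → ℝ) (x : P → ℤ) (j : ℕ) (y : P → ℝ) : 0 ≤ e2 f x j y := by
  unfold e2
  apply Finset.sum_nonneg
  intro v _
  split_ifs <;> positivity

lemma t2_nonneg (x : P → ℤ) (j : ℕ) (y : P → ℝ) : 0 ≤ t2 x j y := by
  unfold t2
  positivity

lemma fd_apply (L : (P → ℝ) →L[ℝ] ℝ) (d : P → ℝ) : L d = ∑ v, d v * L (Pi.single v 1) := by
  have h : d = ∑ v, d v • (Pi.single v (1 : ℝ) : P → ℝ) := by
    funext w
    simp [Finset.sum_apply, Pi.single_apply]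
  conv_lhs => rw [h]
  rw [map_sum]
  simp

lemma amgm (c a b : ℝ) (hc : 0 < c) : |a * b| ≤ 1 / 2 * (c * a ^ 2 + c⁻¹ * b ^ 2) := by
  have h : c * a ^ 2 + c⁻¹ * b ^ 2 - 2 * |a * b| = c⁻¹ * (c * |a| - |b|) ^ 2 := by
    rw [abs_mul]
    have h1 : |a| ^ 2 = a ^ 2 := sq_abs a
    have h2 : |b| ^ 2 = b ^ 2 := sq_abs b
    have h3 : c⁻¹ * (c * |a| - |b|) ^ 2 =
        c⁻¹ * c * c * |a| ^ 2 - 2 * (c⁻¹ * c) * |a| * |b| + c⁻¹ * |b| ^ 2 := by ring
    rw [h3, inv_mul_cancel₀ hc.ne', h1, h2]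
    ring
  have h2 : 0 ≤ c⁻¹ * (c * |a| - |b|) ^ 2 := by positivity
  linarith

lemma fd_bound (f : (P → ℝ) → ℝ) (x : P → ℤ) (j : ℕ) (hx : x ∈ XX P) (hj : j < Fintype.card P)
    (y z : P → ℝ) (c : ℝ) (hc : 0 < c) :
    |fderiv ℝ f z (fun v => (y v - rf x j y v) / 2)| ≤
      1 / 2 * (c * t2 x j y + c⁻¹ * e2 f x j z) := by
  obtain ⟨-, -, -, -, -, -, -, hfix, -⟩ := t_RF P x j hx hj
  rw [fd_apply]
  calc |∑ v, (y v - rf x j y v) / 2 * fderiv ℝ f z (Pi.single v 1)|
      ≤ ∑ v, |(y v - rf x j y v) / 2 * fderiv ℝ f z (Pi.single v 1)| :=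
        Finset.abs_sum_le_sum_abs _ _
    _ ≤ ∑ v, 1 / 2 * (c * ((y v - rf x j y v) / 2) ^ 2 + c⁻¹ *
          (if |x v| = 2 * j - 1 ∨ |x v| = 2 * j + 1 then (fderiv ℝ f z (Pi.single v 1)) ^ 2
            else 0)) := by
        apply Finset.sum_le_sum
        intro v _
        split_ifs with h
        · exact amgm c _ _ hc
        · rw [not_or] at h
          rw [hfix y v h.1 h.2]
          simp
    _ = 1 / 2 * (c * t2 x j y + c⁻¹ * e2 f x j z) := by
        unfold t2 e2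
        rw [← Finset.mul_sum, Finset.sum_add_distrib, ← Finset.mul_sum, ← Finset.mul_sum]
        congr 2
        · congr 1
          rw [Finset.mul_sum]
          apply Finset.sum_congr rfl
          intro v _
          ring

lemma kap_deriv (x : P → ℤ) (j : ℕ) (y : P → ℝ) (θ : ℝ) :
    HasDerivAt (fun θ : ℝ => kap x j θ y) (fun v => (y v - rf x j y v) / 2) θ := by
  rw [hasDerivAt_pi]
  intro v
  unfold kap
  have h1 : HasDerivAt (fun θ : ℝ => (1 + θ) / 2 * y v + (1 - θ) / 2 * rf x j y v)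
      (1 / 2 * y v + (-1) / 2 * rf x j y v) θ :=
    ((((hasDerivAt_id θ).const_add 1).div_const 2).mul_const _).add
      ((((hasDerivAt_id θ).const_sub 1).div_const 2).mul_const _)
  exact h1.congr_deriv (by ring)

lemma ftc (f : (P → ℝ) → ℝ) (C : ℝ) (hf : Bf f C) (x : P → ℤ) (j : ℕ) (y : P → ℝ) :
    ‖f y - f (rf x j y)‖ₑ ≤ ∫⁻ θ in Ioc (0 : ℝ) 1,
      ‖fderiv ℝ f (kap x j θ y) (fun v => (y v - rf x j y v) / 2) +
        fderiv ℝ f (kap x j (-θ) y) (fun v => (y v - rf x j y v) / 2)‖ₑ := by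
  have hdf : Differentiable ℝ f := hf.cd.differentiable (by norm_num)
  have hcf : Continuous (fderiv ℝ f) := hf.cd.continuous_fderiv (by norm_num)
  have h1 : ∀ θ : ℝ, HasDerivAt (fun θ => f (kap x j θ y) - f (kap x j (-θ) y))
      (fderiv ℝ f (kap x j θ y) (fun v => (y v - rf x j y v) / 2) +
        fderiv ℝ f (kap x j (-θ) y) (fun v => (y v - rf x j y v) / 2)) θ := by
    intro θ
    have ha := (hdf (kap x j θ y)).hasFDerivAt.comp_hasDerivAt θ (kap_deriv x j y θ)
    have hb := (hdf (kap x j (-θ) y)).hasFDerivAt.comp_hasDerivAt (-θ) (kap_deriv x j y (-θ))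
    have hc := hb.scomp θ (hasDerivAt_neg θ)
    have hd := ha.sub hc
    refine HasDerivAt.congr_deriv hd ?_
    rw [neg_one_smul, sub_neg_eq_add]
  have h2 : Continuous fun θ : ℝ =>
      fderiv ℝ f (kap x j θ y) (fun v => (y v - rf x j y v) / 2) +
        fderiv ℝ f (kap x j (-θ) y) (fun v => (y v - rf x j y v) / 2) := by
    have ha := hcf.comp (cont_kap x j y)
    have hb := hcf.comp ((cont_kap x j y).comp continuous_neg)
    exact (ha.clm_apply continuous_const).add (hb.clm_apply continuous_const)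
  have h3 := intervalIntegral.integral_eq_sub_of_hasDerivAt (a := 0) (b := 1)
    (fun θ _ => h1 θ) (h2.intervalIntegrable 0 1)
  have e1 : kap x j 1 y = y := by
    funext v
    simp [kap]
  have e2 : kap x j (-1) y = rf x j y := by
    funext v
    simp [kap]
  have e3 : kap x j (-0) y = kap x j 0 y := by rw [neg_zero]
  rw [e1, e2, e3, sub_self, sub_zero, intervalIntegral.integral_of_le zero_le_one] at h3
  rw [← h3]
  exact enorm_integral_le_lintegral_enorm _

lemma w_int : ∫⁻ θ in Ioc (0 : ℝ) 1, ENNReal.ofReal (θ ^ (-(1 / 2) : ℝ)) = 2 := by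
  rw [← ofReal_integral_eq_lintegral_ofReal]
  · rw [← intervalIntegral.integral_of_le zero_le_one, integral_rpow (Or.inl (by norm_num))]
    norm_num
  · exact (intervalIntegral.intervalIntegrable_rpow' (by norm_num)).1
  · filter_upwards [ae_restrict_mem measurableSet_Ioc] with θ hθ
    exact Real.rpow_nonneg hθ.1.le _

lemma meas_e2 (f : (P → ℝ) → ℝ) (C : ℝ) (hf : Bf f C) (x : P → ℤ) (j : ℕ) :
    Measurable (e2 f x j) := by
  have hcf : Continuous (fderiv ℝ f) := hf.cd.continuous_fderiv (by norm_num)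
  apply Continuous.measurable
  unfold e2
  apply continuous_finset_sum
  intro v _
  split_ifs
  · exact (hcf.clm_apply continuous_const).pow 2
  · exact continuous_const

lemma meas_t2 (x : P → ℤ) (j : ℕ) (hx : x ∈ XX P) (hj : j < Fintype.card P) :
    Measurable (t2 x j) := by
  have h : Measurable (rf x j) := (mp_rf x j hx hj).measurable
  have h2 : ∀ v, Measurable fun y => rf x j y v := fun v => (measurable_pi_apply v).comp h
  unfold t2
  fun_prop

lemma main_lint {ρ : (P → ℝ) → ℝ} (hρ : Sy1 ρ) (f : (P → ℝ) → ℝ) (C : ℝ) (hf : Bf f C)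
    (x : P → ℤ) (j : ℕ) (hx : x ∈ XX P) (hj : j < Fintype.card P) (lam : ℝ) (hl : 0 < lam) :
    ∫⁻ y in Ch x, ‖f y - f (rf x j y)‖ₑ * ENNReal.ofReal (ρ y) ≤
      2 * (ENNReal.ofReal lam *
        (∫⁻ y in Ch x, ENNReal.ofReal (t2 x j y) * ENNReal.ofReal (ρ y)) +
        ENNReal.ofReal (1 / 2 * lam⁻¹) *
          ((∫⁻ y in Ch x, ENNReal.ofReal (e2 f x j y) * ENNReal.ofReal (ρ y)) +
            ∫⁻ y in Ch (sx j x), ENNReal.ofReal (e2 f x j y) * ENNReal.ofReal (ρ y))) := by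
  obtain ⟨w, hwdef⟩ : ∃ w : ℝ → ℝ, w = fun θ => θ ^ (-(1 / 2) : ℝ) := ⟨_, rfl⟩
  have hw : ∀ θ, 0 < θ → 0 < w θ := fun θ h => by
    rw [hwdef]
    exact Real.rpow_pos_of_pos h _
  have hww : ∀ θ, 0 < θ → w θ * w θ = θ⁻¹ := fun θ h => by
    rw [hwdef]
    simp only
    rw [← Real.rpow_add h, ← Real.rpow_neg_one]
    norm_num
  have hwm : Measurable w := by
    rw [hwdef]
    fun_prop
  have he := meas_e2 f C hf x j
  have ht := meas_t2 x j hx hj
  have hrm : Measurable fun y => ENNReal.ofReal (ρ y) := ENNReal.measurable_ofReal.comp hρ.meas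
  obtain ⟨F, hF⟩ : ∃ F : ℝ → (P → ℝ) → ℝ≥0∞, F = fun θ y =>
      ENNReal.ofReal (lam * w θ) * ENNReal.ofReal (t2 x j y) +
        ENNReal.ofReal (1 / 2 * (lam * w θ)⁻¹) *
          (ENNReal.ofReal (e2 f x j (kap x j θ y)) + ENNReal.ofReal (e2 f x j (kap x j (-θ) y))) :=
    ⟨_, rfl⟩
  have hpt : ∀ y, ∀ θ ∈ Ioc (0 : ℝ) 1,
      ‖fderiv ℝ f (kap x j θ y) (fun v => (y v - rf x j y v) / 2) +
        fderiv ℝ f (kap x j (-θ) y) (fun v => (y v - rf x j y v) / 2)‖ₑ ≤ F θ y := by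
    intro y θ hθ
    have hc : 0 < lam * w θ := mul_pos hl (hw θ hθ.1)
    have ha := fd_bound f x j hx hj y (kap x j θ y) (lam * w θ) hc
    have hb := fd_bound f x j hx hj y (kap x j (-θ) y) (lam * w θ) hc
    have h1 := e2_nonneg f x j (kap x j θ y)
    have h2 := e2_nonneg f x j (kap x j (-θ) y)
    have h3 := t2_nonneg x j y
    rw [hF]
    simp only
    rw [← ENNReal.ofReal_mul hc.le, ← ENNReal.ofReal_add h1 h2,
      ← ENNReal.ofReal_mul (by positivity), ← ENNReal.ofReal_add (by positivity) (by positivity),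
      Real.enorm_eq_ofReal_abs]
    apply ENNReal.ofReal_le_ofReal
    have h4 := abs_add_le (fderiv ℝ f (kap x j θ y) (fun v => (y v - rf x j y v) / 2))
      (fderiv ℝ f (kap x j (-θ) y) (fun v => (y v - rf x j y v) / 2))
    linarith
  have hkm1 : Measurable fun q : (P → ℝ) × ℝ => kap x j q.2 q.1 :=
    (meas_kap x j).comp (measurable_snd.prodMk measurable_fst)
  have hkm2 : Measurable fun q : (P → ℝ) × ℝ => kap x j (-q.2) q.1 :=
    (meas_kap x j).comp (measurable_snd.neg.prodMk measurable_fst)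
  have hFm : Measurable fun q : (P → ℝ) × ℝ => F q.2 q.1 * ENNReal.ofReal (ρ q.1) := by
    rw [hF]
    have h1 : Measurable fun q : (P → ℝ) × ℝ => t2 x j q.1 := ht.comp measurable_fst
    have h2 : Measurable fun q : (P → ℝ) × ℝ => w q.2 := hwm.comp measurable_snd
    have h3 : Measurable fun q : (P → ℝ) × ℝ => e2 f x j (kap x j q.2 q.1) := he.comp hkm1
    have h4 : Measurable fun q : (P → ℝ) × ℝ => e2 f x j (kap x j (-q.2) q.1) := he.comp hkm2
    have h5 : Measurable fun q : (P → ℝ) × ℝ => ρ q.1 := hρ.meas.comp measurable_fst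
    exact ((((h2.const_mul lam).ennreal_ofReal).mul h1.ennreal_ofReal).add
      ((((h2.const_mul lam).inv.const_mul (1 / 2)).ennreal_ofReal).mul
        (h3.ennreal_ofReal.add h4.ennreal_ofReal))).mul h5.ennreal_ofReal
  obtain ⟨K, hK⟩ : ∃ K : ℝ≥0∞, K = ENNReal.ofReal lam *
        (∫⁻ y in Ch x, ENNReal.ofReal (t2 x j y) * ENNReal.ofReal (ρ y)) +
        ENNReal.ofReal (1 / 2 * lam⁻¹) *
          ((∫⁻ y in Ch x, ENNReal.ofReal (e2 f x j y) * ENNReal.ofReal (ρ y)) +
            ∫⁻ y in Ch (sx j x), ENNReal.ofReal (e2 f x j y) * ENNReal.ofReal (ρ y)) := ⟨_, rfl⟩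
  have hinner : ∀ θ ∈ Ioc (0 : ℝ) 1, ∫⁻ y in Ch x, F θ y * ENNReal.ofReal (ρ y) ≤
      ENNReal.ofReal (w θ) * K := by
    intro θ hθ
    have hwp := hw θ hθ.1
    have hem : Measurable fun y => ENNReal.ofReal (e2 f x j y) :=
      ENNReal.measurable_ofReal.comp he
    have h1 := lint_kap hρ x j hx hj θ hθ.1 hθ.2 (fun y => ENNReal.ofReal (e2 f x j y)) hem
    have h2 := lint_kap' hρ x j hx hj θ hθ.1 hθ.2 (fun y => ENNReal.ofReal (e2 f x j y)) hem
    have hk1 : Measurable (kap x j θ) :=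
      (meas_kap x j).comp (measurable_const.prodMk measurable_id)
    have hk2 : Measurable (kap x j (-θ)) :=
      (meas_kap x j).comp (measurable_const.prodMk measurable_id)
    have e0 : ∀ y, F θ y * ENNReal.ofReal (ρ y) =
        ENNReal.ofReal (lam * w θ) * (ENNReal.ofReal (t2 x j y) * ENNReal.ofReal (ρ y)) +
        ENNReal.ofReal (1 / 2 * (lam * w θ)⁻¹) *
          (ENNReal.ofReal (e2 f x j (kap x j θ y)) * ENNReal.ofReal (ρ y) +
            ENNReal.ofReal (e2 f x j (kap x j (-θ) y)) * ENNReal.ofReal (ρ y)) := by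
      intro y
      rw [hF]
      ring
    have htm : Measurable fun y => ENNReal.ofReal (t2 x j y) * ENNReal.ofReal (ρ y) :=
      (ENNReal.measurable_ofReal.comp ht).mul hrm
    have hm1 : Measurable fun y => ENNReal.ofReal (e2 f x j (kap x j θ y)) *
        ENNReal.ofReal (ρ y) := (hem.comp hk1).mul hrm
    have hm2 : Measurable fun y => ENNReal.ofReal (e2 f x j (kap x j (-θ) y)) *
        ENNReal.ofReal (ρ y) := (hem.comp hk2).mul hrm
    have hm12 : Measurable fun y => ENNReal.ofReal (e2 f x j (kap x j θ y)) *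
        ENNReal.ofReal (ρ y) + ENNReal.ofReal (e2 f x j (kap x j (-θ) y)) *
        ENNReal.ofReal (ρ y) := hm1.add hm2
    simp only [e0]
    rw [lintegral_add_left (htm.const_mul _), lintegral_const_mul _ htm,
      lintegral_const_mul _ hm12, lintegral_add_left hm1]
    calc _ ≤ ENNReal.ofReal (lam * w θ) *
          (∫⁻ y in Ch x, ENNReal.ofReal (t2 x j y) * ENNReal.ofReal (ρ y)) +
        ENNReal.ofReal (1 / 2 * (lam * w θ)⁻¹) *
          (ENNReal.ofReal θ⁻¹ *
            (∫⁻ y in Ch x, ENNReal.ofReal (e2 f x j y) * ENNReal.ofReal (ρ y)) +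
          ENNReal.ofReal θ⁻¹ *
            ∫⁻ y in Ch (sx j x), ENNReal.ofReal (e2 f x j y) * ENNReal.ofReal (ρ y)) := by
          gcongr
      _ = ENNReal.ofReal (w θ) * K := by
          have e1 : 1 / 2 * (lam * w θ)⁻¹ * θ⁻¹ = w θ * (1 / 2 * lam⁻¹) := by
            rw [← hww θ hθ.1, mul_inv]
            field_simp
          rw [← mul_add (ENNReal.ofReal θ⁻¹), ← mul_assoc (ENNReal.ofReal (1 / 2 * (lam * w θ)⁻¹)),
            ← ENNReal.ofReal_mul (by positivity), e1, hK, mul_comm lam, ENNReal.ofReal_mul hwp.le,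
            ENNReal.ofReal_mul hwp.le]
          ring
  calc ∫⁻ y in Ch x, ‖f y - f (rf x j y)‖ₑ * ENNReal.ofReal (ρ y)
      ≤ ∫⁻ y in Ch x, (∫⁻ θ in Ioc (0 : ℝ) 1, F θ y) * ENNReal.ofReal (ρ y) := by
        apply lintegral_mono
        intro y
        exact mul_le_mul' ((ftc f C hf x j y).trans
          (setLIntegral_mono' measurableSet_Ioc (hpt y))) le_rfl
    _ = ∫⁻ y in Ch x, ∫⁻ θ in Ioc (0 : ℝ) 1, F θ y * ENNReal.ofReal (ρ y) := by
        apply lintegral_congr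
        intro y
        exact (lintegral_mul_const' _ _ ENNReal.ofReal_ne_top).symm
    _ = ∫⁻ θ in Ioc (0 : ℝ) 1, ∫⁻ y in Ch x, F θ y * ENNReal.ofReal (ρ y) :=
        lintegral_lintegral_swap hFm.aemeasurable
    _ ≤ ∫⁻ θ in Ioc (0 : ℝ) 1, ENNReal.ofReal (w θ) * K :=
        setLIntegral_mono' measurableSet_Ioc hinner
    _ = 2 * K := by
        have hwm' : Measurable fun θ => ENNReal.ofReal (w θ) := ENNReal.measurable_ofReal.comp hwm
        rw [lintegral_mul_const _ hwm']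
        congr 1
        rw [hwdef]
        exact w_int
    _ = _ := by rw [hK]

lemma int_rho {ρ : (P → ℝ) → ℝ} (hρ : Sy1 ρ) : Integrable ρ := by
  refine ⟨hρ.meas.aestronglyMeasurable, ?_⟩
  rw [hasFiniteIntegral_iff_ofReal (Filter.Eventually.of_forall hρ.nonneg), hρ.mass]
  exact ENNReal.one_lt_top

lemma int_bdd {ρ : (P → ℝ) → ℝ} (hρ : Sy1 ρ) (g : (P → ℝ) → ℝ) (hg : Measurable g) (C : ℝ)
    (hb : ∀ y, |g y| ≤ C) : Integrable fun y => g y * ρ y :=
  (int_rho hρ).bdd_mul hg.aestronglyMeasurable (Filter.Eventually.of_forall hb)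

lemma int_sq {ρ : (P → ℝ) → ℝ} (hρ : Sy1 ρ) (s : ℝ) (hs : Mom2 ρ s) (i : P) :
    Integrable fun y : P → ℝ => y i ^ 2 * ρ y := by
  have hm : Measurable fun y : P → ℝ => y i ^ 2 * ρ y := by
    have := hρ.meas
    fun_prop
  refine ⟨hm.aestronglyMeasurable, ?_⟩
  rw [hasFiniteIntegral_iff_ofReal
    (Filter.Eventually.of_forall fun y => mul_nonneg (sq_nonneg _) (hρ.nonneg y))]
  exact (hs i).trans_lt ENNReal.ofReal_lt_top

lemma int_t2 {ρ : (P → ℝ) → ℝ} (hρ : Sy1 ρ) (s : ℝ) (hs : Mom2 ρ s) (x : P → ℤ) (j : ℕ)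
    (hx : x ∈ XX P) (hj : j < Fintype.card P) : Integrable fun y => t2 x j y * ρ y := by
  obtain ⟨σ, ε, hε, hr⟩ := rf_signed x j hx hj
  have hI : Integrable fun y : P → ℝ =>
      1 / 2 * ∑ v, (y v ^ 2 * ρ y + y (σ v) ^ 2 * ρ y) := by
    apply Integrable.const_mul
    apply integrable_finset_sum
    intro v _
    exact (int_sq hρ s hs v).add (int_sq hρ s hs (σ v))
  refine hI.mono' ((meas_t2 x j hx hj).mul hρ.meas).aestronglyMeasurable
    (Filter.Eventually.of_forall fun y => ?_)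
  rw [Real.norm_eq_abs, abs_of_nonneg (mul_nonneg (t2_nonneg x j y) (hρ.nonneg y))]
  unfold t2
  rw [Finset.mul_sum, Finset.mul_sum, Finset.sum_mul]
  apply Finset.sum_le_sum
  intro v _
  rw [hr]
  have h1 : (ε v * y (σ v)) ^ 2 = y (σ v) ^ 2 := by
    rcases hε v with h | h <;> rw [h] <;> ring
  have h2 : (y v - ε v * y (σ v)) ^ 2 ≤ 2 * (y v ^ 2 + y (σ v) ^ 2) := by
    rw [← h1]
    nlinarith [sq_nonneg (y v + ε v * y (σ v))]
  have h3 := hρ.nonneg y
  nlinarith

lemma e2_bdd (f : (P → ℝ) → ℝ) (C : ℝ) (hf : Bf f C) (x : P → ℤ) (j : ℕ) (y : P → ℝ) :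
    |e2 f x j y| ≤ Fintype.card P * C ^ 2 := by
  rw [abs_of_nonneg (e2_nonneg f x j y)]
  unfold e2
  calc _ ≤ ∑ v : P, C ^ 2 := by
        apply Finset.sum_le_sum
        intro v _
        split_ifs
        · rw [← sq_abs]
          exact pow_le_pow_left₀ (abs_nonneg _) (hf.db y v) 2
        · positivity
    _ = _ := by simp

lemma lint_eq {ρ : (P → ℝ) → ℝ} (hρ : Sy1 ρ) (g : (P → ℝ) → ℝ) (hg : ∀ y, 0 ≤ g y)
    (hi : Integrable fun y => g y * ρ y) (A : Set (P → ℝ)) :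
    ∫⁻ y in A, ENNReal.ofReal (g y) * ENNReal.ofReal (ρ y) =
      ENNReal.ofReal (∫ y in A, g y * ρ y) := by
  rw [ofReal_integral_eq_lintegral_ofReal hi.integrableOn
    (Filter.Eventually.of_forall fun y => mul_nonneg (hg y) (hρ.nonneg y))]
  apply lintegral_congr
  intro y
  exact (ENNReal.ofReal_mul (hg y)).symm

lemma final_alg (X t B : ℝ) (hX : 0 ≤ X) (ht : 0 ≤ t) (hB : 0 ≤ B)
    (h : ∀ lam : ℝ, 0 < lam → X ≤ 2 * (lam * t + 1 / 2 * lam⁻¹ * B)) : X ^ 2 ≤ 8 * t * B := by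
  rcases ht.lt_or_eq with ht | ht
  · rcases hX.lt_or_eq with hX | hX
    · have h1 := h (X / (4 * t)) (by positivity)
      have h2 : 2 * (X / (4 * t) * t + 1 / 2 * (X / (4 * t))⁻¹ * B) = X / 2 + 4 * t * B / X := by
        field_simp
        ring
      rw [h2] at h1
      have h3 : X / 2 ≤ 4 * t * B / X := by linarith
      rw [le_div_iff₀ hX] at h3
      nlinarith
    · rw [← hX, zero_pow two_ne_zero]
      exact mul_nonneg (mul_nonneg (by norm_num) ht.le) hB
  · rw [← ht]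
    have h1 : X ≤ 0 := by
      by_contra hc
      rw [not_le] at hc
      have h1 := h ((B + 1) / X) (by positivity)
      rw [← ht] at h1
      have h2 : 2 * ((B + 1) / X * 0 + 1 / 2 * ((B + 1) / X)⁻¹ * B) = X * (B / (B + 1)) := by
        field_simp
        ring
      rw [h2] at h1
      have h3 : B / (B + 1) < 1 := by
        rw [div_lt_one (by linarith)]
        linarith
      nlinarith
    have h2 : X = 0 := le_antisymm h1 hX
    rw [h2]
    simp

end geo

theorem t_BND (_ : S_SPM) (_ : S_RF) : S_BND := by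
  intro P _ _ _ ρ s C f x j hρ hs hf hx hj
  show ((∫ y in Ch x, f y * ρ y) - ∫ y in Ch (sx j x), f y * ρ y) ^ 2 ≤
      8 * (∫ y in Ch x, t2 x j y * ρ y) *
        ((∫ y in Ch x, e2 f x j y * ρ y) + ∫ y in Ch (sx j x), e2 f x j y * ρ y)
  have hfm : Measurable f := hf.cd.continuous.measurable
  have hmp := mp_rf x j hx hj
  have i1 : Integrable fun y => f y * ρ y := int_bdd hρ f hfm C hf.bd
  have hrm : Measurable (rf x j) := hmp.measurable
  have i2 : Integrable fun y => f (rf x j y) * ρ y :=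
    int_bdd hρ (fun y => f (rf x j y)) (hfm.comp hrm) C (fun y => hf.bd _)
  have hch : ∫ y in Ch (sx j x), f y * ρ y = ∫ y in Ch x, f (rf x j y) * ρ y := by
    have hfr : Measurable fun y => f y * ρ y := hfm.mul hρ.meas
    rw [← hmp.map_eq, integral_map hrm.aemeasurable hfr.aestronglyMeasurable]
    apply integral_congr_ae
    refine Filter.Eventually.of_forall fun y => ?_
    show f (rf x j y) * ρ (rf x j y) = f (rf x j y) * ρ y
    rw [rho_rf hρ x j hx hj]
  rw [hch, ← integral_sub i1.integrableOn i2.integrableOn, ← sq_abs]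
  have it := int_t2 hρ s hs x j hx hj
  have ie : Integrable fun y => e2 f x j y * ρ y :=
    int_bdd hρ _ (meas_e2 f C hf x j) _ (e2_bdd f C hf x j)
  have n1 : 0 ≤ ∫ y in Ch x, t2 x j y * ρ y :=
    integral_nonneg fun y => mul_nonneg (t2_nonneg x j y) (hρ.nonneg y)
  have n2 : 0 ≤ ∫ y in Ch x, e2 f x j y * ρ y :=
    integral_nonneg fun y => mul_nonneg (e2_nonneg f x j y) (hρ.nonneg y)
  have n3 : 0 ≤ ∫ y in Ch (sx j x), e2 f x j y * ρ y :=
    integral_nonneg fun y => mul_nonneg (e2_nonneg f x j y) (hρ.nonneg y)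
  apply final_alg _ _ _ (abs_nonneg _) n1 (add_nonneg n2 n3)
  intro lam hl
  have h := main_lint hρ f C hf x j hx hj lam hl
  rw [lint_eq hρ _ (t2_nonneg x j) it, lint_eq hρ _ (e2_nonneg f x j) ie,
    lint_eq hρ _ (e2_nonneg f x j) ie, ← ENNReal.ofReal_add n2 n3, ← ENNReal.ofReal_mul hl.le,
    ← ENNReal.ofReal_mul (by positivity), ← ENNReal.ofReal_add (by positivity) (by positivity),
    ← ENNReal.ofReal_ofNat, ← ENNReal.ofReal_mul (by norm_num)] at h
  have h1 : ENNReal.ofReal |∫ y in Ch x, (f y * ρ y - f (rf x j y) * ρ y)| ≤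
      ∫⁻ y in Ch x, ‖f y - f (rf x j y)‖ₑ * ENNReal.ofReal (ρ y) := by
    rw [← Real.enorm_eq_ofReal_abs]
    refine (enorm_integral_le_lintegral_enorm _).trans (le_of_eq ?_)
    apply lintegral_congr
    intro y
    rw [← sub_mul, enorm_mul, Real.enorm_eq_ofReal (hρ.nonneg y)]
  exact (ENNReal.ofReal_le_ofReal_iff (by positivity)).1 (h1.trans h)

end Run7.h11.KF
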