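import Pool.Agent.Run7.h523.KF.Iface3

set_option autoImplicit false

namespace Run7.h11.KF

open Run7.h523.KF
open Finset

lemma sb_sb (j : ℕ) (z : ℤ) (hz : Odd z) : sb j (sb j z) = z := by
  obtain ⟨a, rfl⟩ := hz
  unfold sb
  split_ifs <;> omega

lemma sb_neg (j : ℕ) (z : ℤ) (hz : Odd z) : sb j (-z) = - sb j z := by
  obtain ⟨a, rfl⟩ := hz
  unfold sb
  split_ifs <;> omega

lemma sb_odd (j : ℕ) (z : ℤ) (hz : Odd z) : Odd (sb j z) := by
  obtain ⟨a, rfl⟩ := hz
  unfold sb
  split_ifs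
  · exact ⟨j - 1, by ring⟩
  · exact ⟨-j, by ring⟩
  · exact ⟨j, by ring⟩
  · exact ⟨-j - 1, by ring⟩
  · exact ⟨a, rfl⟩

lemma sb_lt (j : ℕ) (A B : ℤ) (hA : Odd A) (hB : Odd B) (h : A < B) :
    sb j A < sb j B ∨ (sb j A = B ∧ sb j B = A) := by
  obtain ⟨a, rfl⟩ := hA
  obtain ⟨b, rfl⟩ := hB
  unfold sb
  split_ifs <;> omega

lemma sb_abs (j : ℕ) (z z' : ℤ) (hz : Odd z) (hz' : Odd z') (h : |sb j z| = |sb j z'|) :
    |z| = |z'| := by
  rcases abs_eq_abs.1 h with h1 | h1
  · have := congrArg (sb j) h1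
    rw [sb_sb j z hz, sb_sb j z' hz'] at this
    rw [this]
  · have := congrArg (sb j) h1
    rw [sb_sb j z hz, sb_neg j _ (sb_odd j z' hz'), sb_sb j z' hz'] at this
    rw [this, abs_neg]

lemma sb_fix (j : ℕ) (z : ℤ) (h1 : |z| ≠ 2 * j - 1) (h2 : |z| ≠ 2 * j + 1) :
    sb j z = z := by
  unfold sb
  rcases abs_cases z with ⟨h, h'⟩ | ⟨h, h'⟩ <;> rw [h] at h1 h2 <;> split_ifs <;> omega

lemma mem_Si {M : ℕ} {z : ℤ} : z ∈ Si M ↔ (-(2 * M : ℤ) < z ∧ z < 2 * M) ∧ Odd z := by
  unfold Si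
  rw [Finset.mem_filter, Finset.mem_Ioo]

lemma sb_mem (M j : ℕ) (z : ℤ) (hj : j < M) (hz : z ∈ Si M) : sb j z ∈ Si M := by
  rw [mem_Si] at hz ⊢
  refine ⟨?_, sb_odd j z hz.2⟩
  obtain ⟨h1, -⟩ := hz
  unfold sb
  split_ifs <;> omega

lemma card_Si (M : ℕ) : (Si M).card ≤ 2 * M := by
  have h : Si M ⊆ (range (2 * M)).image (fun i : ℕ => 2 * (i : ℤ) - (2 * M - 1)) := by
    intro z hz
    rw [mem_Si] at hz
    obtain ⟨⟨h1, h2⟩, a, ha⟩ := hz
    have h3 : (0 : ℤ) ≤ a + M := by omega
    obtain ⟨k, hk⟩ := Int.eq_ofNat_of_zero_le h3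
    refine Finset.mem_image.2 ⟨k, Finset.mem_range.2 (by omega), ?_⟩
    show 2 * (k : ℤ) - (2 * M - 1) = z
    omega
  calc (Si M).card ≤ _ := Finset.card_le_card h
    _ ≤ (range (2 * M)).card := Finset.card_image_le
    _ = 2 * M := Finset.card_range _

section
variable {P : Type} [Fintype P] [DecidableEq P] {x : P → ℤ}

lemma mem_XX : x ∈ XX P ↔ (∀ v, x v ∈ Si (Fintype.card P)) ∧ ∀ v w, |x v| = |x w| → v = w := by
  classical
  unfold XX Om Si
  simp only [Finset.mem_filter, Fintype.mem_piFinset, Finset.mem_Ioo]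
  constructor
  · rintro ⟨h1, h2, -⟩
    exact ⟨h1, h2⟩
  · rintro ⟨h1, h2⟩
    exact ⟨h1, h2, fun _ _ h => h.elim⟩

lemma x_odd (hx : x ∈ XX P) (v : P) : Odd (x v) := (mem_Si.1 ((mem_XX.1 hx).1 v)).2

lemma sv_odd (hx : x ∈ XX P) (a : P × Bool) : Odd (sv x a) := by
  unfold sv
  split_ifs
  · exact x_odd hx _
  · exact (x_odd hx _).neg

lemma abs_sv (x : P → ℤ) (a : P × Bool) : |sv x a| = |x a.1| := by
  unfold sv
  split_ifs
  · rfl
  · rw [abs_neg]

lemma sv_mem (hx : x ∈ XX P) (a : P × Bool) : sv x a ∈ Si (Fintype.card P) := by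
  have h := mem_Si.1 ((mem_XX.1 hx).1 a.1)
  rw [mem_Si]
  refine ⟨?_, sv_odd hx a⟩
  unfold sv
  split_ifs
  · exact h.1
  · constructor <;> linarith [h.1.1, h.1.2]

lemma sv_inj (hx : x ∈ XX P) {a b : P × Bool} (h : sv x a = sv x b) : a = b := by
  have h1 : a.1 = b.1 := by
    apply (mem_XX.1 hx).2
    rw [← abs_sv, ← abs_sv, h]
  obtain ⟨v, s⟩ := a
  obtain ⟨w, t⟩ := b
  simp only at h1
  subst h1
  congr 1
  obtain ⟨c, hc⟩ := x_odd hx v
  cases s <;> cases t <;> simp only [sv] at h ⊢ <;> first | rfl | (exfalso; simp at h; omega)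

lemma sv_surj (hx : x ∈ XX P) {z : ℤ} (hz : z ∈ Si (Fintype.card P)) : ∃ a, sv x a = z := by
  classical
  have h1 : (univ : Finset (P × Bool)).image (sv x) ⊆ Si (Fintype.card P) := by
    intro z hz
    obtain ⟨a, -, rfl⟩ := Finset.mem_image.1 hz
    exact sv_mem hx a
  have h2 : ((univ : Finset (P × Bool)).image (sv x)).card = 2 * Fintype.card P := by
    rw [Finset.card_image_of_injective _ (fun a b h => sv_inj hx h), Finset.card_univ,
      Fintype.card_prod, Fintype.card_bool]
    ring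
  have h3 : (univ : Finset (P × Bool)).image (sv x) = Si (Fintype.card P) :=
    Finset.eq_of_subset_of_card_le h1 (by rw [h2]; exact card_Si _)
  rw [← h3] at hz
  obtain ⟨a, -, ha⟩ := Finset.mem_image.1 hz
  exact ⟨a, ha⟩

variable [Nonempty P]

lemma sv_lab (hx : x ∈ XX P) {z : ℤ} (hz : z ∈ Si (Fintype.card P)) : sv x (lab x z) = z := by
  obtain ⟨a, ha⟩ := sv_surj hx hz
  exact Classical.epsilon_spec (p := fun a => sv x a = z) ⟨a, ha⟩

lemma lab_sv (hx : x ∈ XX P) (a : P × Bool) : lab x (sv x a) = a :=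
  sv_inj hx (sv_lab hx (sv_mem hx a))

/-- the opposite label -/
def opp (a : P × Bool) : P × Bool := (a.1, !a.2)

lemma sv_opp {α : Type} [AddGroup α] (y : P → α) (a : P × Bool) : sv y (opp a) = - sv y a := by
  obtain ⟨v, s⟩ := a
  cases s <;> simp [sv, opp]

lemma lab_neg (hx : x ∈ XX P) {z : ℤ} (hz : z ∈ Si (Fintype.card P)) :
    lab x (-z) = opp (lab x z) := by
  have h : sv x (opp (lab x z)) = -z := by rw [sv_opp, sv_lab hx hz]
  rw [← h, lab_sv hx]

lemma sv_rf (hx : x ∈ XX P) (j : ℕ) (hj : j < Fintype.card P) (y : P → ℝ) (a : P × Bool) :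
    sv (rf x j y) a = sv y (lab x (sb j (sv x a))) := by
  obtain ⟨v, s⟩ := a
  cases s
  · have e1 : sv (rf x j y) (v, false) = - sv y (lab x (sb j (x v))) := by simp [sv, rf]
    have e2 : sv x (v, false) = - x v := by simp [sv]
    rw [e1, e2, sb_neg j _ (x_odd hx v), lab_neg hx (sb_mem _ j _ hj ((mem_XX.1 hx).1 v)), sv_opp]
  · have e1 : sv (rf x j y) (v, true) = sv y (lab x (sb j (x v))) := by simp [sv, rf]
    have e2 : sv x (v, true) = x v := by simp [sv]
    rw [e1, e2]

lemma sv_sx (hx : x ∈ XX P) (j : ℕ) (a : P × Bool) : sv (sx j x) a = sb j (sv x a) := by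
  obtain ⟨v, s⟩ := a
  cases s
  · simp only [sv, sx]
    rw [if_neg (by simp), if_neg (by simp), sb_neg j _ (x_odd hx v)]
  · simp [sv, sx]

lemma sx_mem (hx : x ∈ XX P) (j : ℕ) (hj : j < Fintype.card P) : sx j x ∈ XX P := by
  rw [mem_XX]
  obtain ⟨h1, h2⟩ := mem_XX.1 hx
  exact ⟨fun v => sb_mem _ j _ hj (h1 v),
    fun v w h => h2 v w (sb_abs j _ _ (x_odd hx v) (x_odd hx w) h)⟩

lemma lab_sx (hx : x ∈ XX P) (j : ℕ) (hj : j < Fintype.card P) {z : ℤ}
    (hz : z ∈ Si (Fintype.card P)) : lab (sx j x) z = lab x (sb j z) := by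
  have h : sv (sx j x) (lab x (sb j z)) = z := by
    rw [sv_sx hx, sv_lab hx (sb_mem _ j _ hj hz), sb_sb j z (mem_Si.1 hz).2]
  conv_lhs => rw [← h]
  rw [lab_sv (sx_mem hx j hj)]

end

theorem t_RF : S_RF := by
  intro P _ _ _ x j hx hj
  have hsx := sx_mem hx j hj
  have hxm := (mem_XX.1 hx).1
  have hlabx : ∀ v, lab x (x v) = (v, true) := fun v => by
    have := lab_sv hx (v, true)
    simpa [sv] using this
  have hmono : ∀ y ∈ Ch x, ∀ z ∈ Si (Fintype.card P), ∀ z' ∈ Si (Fintype.card P), z < z' →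
      sv y (lab x z) < sv y (lab x z') := by
    intro y hy z hz z' hz' h
    apply hy
    rw [sv_lab hx hz, sv_lab hx hz']
    exact h
  have hn : 0 < Fintype.card P := Fintype.card_pos
  refine ⟨hsx, fun z hz => sv_lab hx hz, lab_sv hx, ?_, ?_, ?_, ?_, ?_, ?_, ?_, ?_⟩
  · have hinj : Function.Injective fun v => (lab x (sb j (x v))).1 := by
      intro v w h
      simp only at h
      apply (mem_XX.1 hx).2
      apply sb_abs j _ _ (x_odd hx v) (x_odd hx w)
      rw [← sv_lab hx (sb_mem _ j _ hj (hxm v)), ← sv_lab hx (sb_mem _ j _ hj (hxm w)), abs_sv,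
        abs_sv, h]
    refine ⟨Equiv.ofBijective _ (Finite.injective_iff_bijective.1 hinj),
      fun v => if (lab x (sb j (x v))).2 then 1 else -1, fun v => ?_, fun y v => ?_⟩
    · simp only
      split_ifs
      · exact Or.inl rfl
      · exact Or.inr rfl
    · show sv y (lab x (sb j (x v))) = _
      unfold sv
      simp only [Equiv.ofBijective_apply]
      split_ifs
      · rw [one_mul]
      · rw [neg_one_mul]
  · intro y
    funext v
    show sv (rf x j y) (lab x (sb j (x v))) = y v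
    rw [sv_rf hx j hj, sv_lab hx (sb_mem _ j _ hj (hxm v)), sb_sb j _ (x_odd hx v), hlabx]
    simp [sv]
  · intro y
    funext v
    show sv y (lab (sx j x) (sb j (sx j x v))) = sv y (lab x (sb j (x v)))
    have h1 : sb j (sx j x v) = x v := sb_sb j _ (x_odd hx v)
    rw [h1, lab_sx hx j hj (hxm v)]
  · intro y
    constructor
    · intro hy a b hab
      rw [sv_rf hx j hj, sv_rf hx j hj]
      rw [sv_sx hx, sv_sx hx] at hab
      exact hmono y hy _ (sb_mem _ j _ hj (sv_mem hx a)) _ (sb_mem _ j _ hj (sv_mem hx b)) hab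
    · intro hy c d hcd
      have h := hy (lab (sx j x) (sv x c)) (lab (sx j x) (sv x d)) (by
        rw [sv_lab hsx (sv_mem hx c), sv_lab hsx (sv_mem hx d)]
        exact hcd)
      rw [sv_rf hx j hj, sv_rf hx j hj, lab_sx hx j hj (sv_mem hx c), lab_sx hx j hj (sv_mem hx d),
        sv_lab hx (sb_mem _ j _ hj (sv_mem hx c)), sv_lab hx (sb_mem _ j _ hj (sv_mem hx d)),
        sb_sb j _ (sv_odd hx c), sb_sb j _ (sv_odd hx d), lab_sv hx, lab_sv hx] at h
      exact h
  · intro y v h1 h2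
    show sv y (lab x (sb j (x v))) = y v
    have h3 : sb j (x v) = x v := sb_fix j _ h1 h2
    rw [h3, hlabx]
    simp [sv]
  · intro y
    have hzero : ∀ v, (|x v| ≠ 2 * j - 1 ∧ |x v| ≠ 2 * j + 1) → (y v - rf x j y v) ^ 2 = 0 := by
      rintro v ⟨h1, h2⟩
      have h3 : rf x j y v = y v := by
        show sv y (lab x (sb j (x v))) = y v
        have h3 : sb j (x v) = x v := sb_fix j _ h1 h2
        rw [h3, hlabx]
        simp [sv]
      rw [h3, sub_self, zero_pow two_ne_zero]
    have hsqa : ∀ a : P × Bool, (y a.1 - rf x j y a.1) ^ 2 =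
        (sv y a - sv y (lab x (sb j (sv x a)))) ^ 2 := by
      intro a
      rw [← sv_rf hx j hj]
      obtain ⟨v, s⟩ := a
      cases s
      · simp only [sv]
        rw [if_neg (by simp), if_neg (by simp)]
        ring
      · simp [sv]
    by_cases hj0 : j = 0
    · subst hj0
      rw [if_pos rfl]
      have h1m : (1 : ℤ) ∈ Si (Fintype.card P) := by
        rw [mem_Si]
        exact ⟨by omega, odd_one⟩
      rw [Finset.sum_eq_single (lab x 1).1]
      · rw [hsqa, sv_lab hx h1m]
        have e1 : sb 0 1 = -1 := by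
          unfold sb
          norm_num
        rw [e1, lab_neg hx h1m, sv_opp]
        unfold gp uu
        simp
        ring
      · intro v _ hv
        apply hzero
        have h2 : |x v| ≠ 1 := by
          intro h
          apply hv
          apply (mem_XX.1 hx).2
          rw [← abs_sv x (lab x 1), sv_lab hx h1m, h]
          rfl
        have h3 : 0 ≤ |x v| := abs_nonneg _
        refine ⟨by push_cast; omega, by push_cast; omega⟩
      · intro h
        exact absurd (Finset.mem_univ _) h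
    · rw [if_neg hj0]
      have hm1 : (2 * j - 1 : ℤ) ∈ Si (Fintype.card P) := by
        rw [mem_Si]
        exact ⟨by omega, ⟨j - 1, by ring⟩⟩
      have hm2 : (2 * j + 1 : ℤ) ∈ Si (Fintype.card P) := by
        rw [mem_Si]
        exact ⟨by omega, ⟨j, by ring⟩⟩
      have hne : (lab x (2 * j - 1)).1 ≠ (lab x (2 * j + 1)).1 := by
        intro h
        have h1 := abs_sv x (lab x (2 * j - 1))
        have h2 := abs_sv x (lab x (2 * j + 1))
        rw [sv_lab hx hm1] at h1
        rw [sv_lab hx hm2, ← h, ← h1, abs_of_nonneg (by omega), abs_of_nonneg (by omega)] at h2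
        omega
      rw [← Finset.sum_subset (Finset.subset_univ
        {(lab x (2 * j - 1)).1, (lab x (2 * j + 1)).1}), Finset.sum_pair hne, hsqa, hsqa,
        sv_lab hx hm1, sv_lab hx hm2]
      · have e1 : sb j (2 * j - 1) = 2 * j + 1 := by
          unfold sb
          split_ifs <;> omega
        have e2 : sb j (2 * j + 1) = 2 * j - 1 := by
          unfold sb
          split_ifs <;> omega
        rw [e1, e2]
        unfold gp uu
        rw [if_neg (by omega), if_neg hj0]
        have e3 : (2 * ((j + 1 : ℕ) : ℤ) - 1) = 2 * j + 1 := by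
          push_cast
          ring
        rw [e3]
        ring
      · intro v _ hv
        rw [Finset.mem_insert, Finset.mem_singleton, not_or] at hv
        apply hzero
        constructor
        · intro h
          apply hv.1
          apply (mem_XX.1 hx).2
          rw [← abs_sv x (lab x (2 * j - 1)), sv_lab hx hm1, h, abs_of_nonneg (by omega)]
        · intro h
          apply hv.2
          apply (mem_XX.1 hx).2
          rw [← abs_sv x (lab x (2 * j + 1)), sv_lab hx hm2, h, abs_of_nonneg (by omega)]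
  · intro y hy i hi
    unfold gp uu
    by_cases hi0 : i = 0
    · subst hi0
      have h1m : (1 : ℤ) ∈ Si (Fintype.card P) := by
        rw [mem_Si]
        exact ⟨by omega, odd_one⟩
      have h1m' : (-1 : ℤ) ∈ Si (Fintype.card P) := by
        rw [mem_Si]
        exact ⟨by omega, odd_one.neg⟩
      have h := hmono y hy (-1) h1m' 1 h1m (by norm_num)
      rw [lab_neg hx h1m, sv_opp] at h
      simp
      linarith
    · rw [if_neg (by omega), if_neg hi0]
      have e3 : (2 * ((i + 1 : ℕ) : ℤ) - 1) = 2 * i + 1 := by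
        push_cast
        ring
      rw [e3]
      have h := hmono y hy (2 * i - 1) (by
        rw [mem_Si]
        exact ⟨by omega, ⟨i - 1, by ring⟩⟩) (2 * i + 1) (by
        rw [mem_Si]
        exact ⟨by omega, ⟨i, by ring⟩⟩) (by omega)
      linarith
  · intro y hy θ hθ hθ1 a b hab
    have e : ∀ a, sv (fun v => (1 + θ) / 2 * y v + (1 - θ) / 2 * rf x j y v) a =
        (1 + θ) / 2 * sv y a + (1 - θ) / 2 * sv y (lab x (sb j (sv x a))) := by
      intro a
      rw [← sv_rf hx j hj]
      obtain ⟨v, s⟩ := a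
      cases s
      · simp only [sv]
        rw [if_neg (by simp), if_neg (by simp), if_neg (by simp)]
        ring
      · simp [sv]
    rw [e, e]
    have h1 : sv y a < sv y b := hy a b hab
    rcases sb_lt j _ _ (sv_odd hx a) (sv_odd hx b) hab with h2 | ⟨h2, h3⟩
    · have h3 := hmono y hy _ (sb_mem _ j _ hj (sv_mem hx a)) _ (sb_mem _ j _ hj (sv_mem hx b)) h2
      nlinarith
    · rw [h2, h3, lab_sv hx, lab_sv hx]
      nlinarith

end Run7.h11.KF
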